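import Pool.Agent.Lib.MP_361a6f_ag.FL.S.Stat
import Pool.Agent.Lib.MP_361a6f_ag.SQ.OpTrace

/-!
# Row SPT: an algebraic class of codimension `dim X` with a nonzero trace
-/

open CategoryTheory AlgebraicGeometry MonoidalCategory CartesianMonoidalCategory

universe u v w

set_option autoImplicit false
set_option linter.unusedSectionVars false

namespace Pool.Agent.Lib.MP_361a6f_ag.FL

open Pool.Agent.Lib.MP_361a6f_ag.H3 Pool.Agent.Lib.MP_361a6f_ag.SQ
  Pool.Agent.Lib.MP_361a6f_ag.PP

namespace SPT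

variable {k : Type u} [Field k] {W : CohomologyData.{u, 0, w} k ℂ} {𝒱 : VarietyClass k}

/-- the operator of a class on `X × X` -/
noncomputable def opr {X : Sch k} (γ : W.coh (X ⊗ X)) : W.coh X →ₗ[ℂ] W.coh X :=
  (W.push (snd X X)) ∘ₗ (LinearMap.mulRight ℂ γ) ∘ₗ (W.pull (fst X X)).toLinearMap

theorem opr_apply {X : Sch k} (γ : W.coh (X ⊗ X)) (s : W.coh X) :
    opr γ s = W.push (snd X X) (W.pull (fst X X) s * γ) := rfl

variable (hW : IsWeilCohomology W 𝒱) {X : Sch k} {n : ℕ} (hX : 𝒱.mem X n)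

include hW hX in
/-- the trace of the restriction to the diagonal, for operators with values of even degree -/
theorem tr_diag (γ : W.coh (X ⊗ X)) (he : ∀ s t, W.tr X (opr γ s * t) = W.tr X (t * opr γ s)) :
    W.tr X (W.pull (lift (𝟙 X) (𝟙 X)) γ) = LinearMap.trace ℂ (W.coh X) (opr γ) := by
  classical
  have := hW.finite hX
  obtain ⟨m, b, b', hb⟩ := exists_dual hW hX
  set u := opr γ with hu
  have eγ : γ = ∑ j, W.pull (fst X X) (b' j) * W.pull (snd X X) (u (b j)) := by
    rw [← sub_eq_zero]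
    refine eq_zero_of_act hW hX (fun s => ?_)
    have e1 : act W (γ - ∑ j, W.pull (fst X X) (b' j) * W.pull (snd X X) (u (b j))) s
        = act W γ s - ∑ j, W.tr X (s * b' j) • u (b j) := by
      rw [act, act, mul_sub, map_sub, Finset.mul_sum, map_sum]
      congr 1
      refine Finset.sum_congr rfl fun j _ => ?_
      rw [← mul_assoc, ← map_mul, push_snd hW hX]
    rw [e1]
    change u s - _ = 0
    conv_lhs => rw [show u s = u (∑ j, W.tr X (s * b' j) • b j) by rw [← hb s]]
    rw [map_sum]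
    simp only [map_smul, sub_self]
  have etr : LinearMap.trace ℂ (W.coh X) u = ∑ j, W.tr X (u (b j) * b' j) := by
    have e2 : u = ∑ j, ((W.tr X) ∘ₗ (LinearMap.mulRight ℂ (b' j)) ∘ₗ u).smulRight (b j) := by
      refine LinearMap.ext fun s => ?_
      conv_lhs => rw [hb (u s)]
      simp [LinearMap.sum_apply]
    conv_lhs => rw [e2]
    rw [map_sum]
    refine Finset.sum_congr rfl fun j _ => ?_
    rw [LinearMap.trace_smulRight]
    rfl
  have e3 : W.tr X (W.pull (lift (𝟙 X) (𝟙 X)) γ) = ∑ j, W.tr X (b' j * u (b j)) := by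
    conv_lhs => rw [eγ]
    rw [map_sum, map_sum]
    refine Finset.sum_congr rfl fun j _ => ?_
    rw [map_mul, ← W.pull_comp, ← W.pull_comp, lift_fst, lift_snd, W.pull_id, W.pull_id]
  rw [e3, etr]
  exact Finset.sum_congr rfl fun j _ => (he (b j) (b' j)).symm

include hW hX in
/-- **Row SPT.** -/
theorem spt (hE : EvenProjector W X n) (h1 : (1 : W.coh X) ≠ 0) :
    ∃ p, W.IsAlg X n p ∧ ∃ r : ℕ, 0 < r ∧ W.Tr p = (r : ℂ) := by
  have := hW.finite hX
  obtain ⟨γ, hγ, hact⟩ := hE
  have hu : ∀ i, ∀ s ∈ W.gr X i, opr γ s = if Even i then s else 0 := fun i s hs => hact i s hs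
  have he : ∀ s t, W.tr X (opr γ s * t) = W.tr X (t * opr γ s) := by
    intro s t
    refine hW.hom_induction hX (P := fun s => W.tr X (opr γ s * t) = W.tr X (t * opr γ s)) s
      ?_ ?_ ?_
    · intro i s hs
      rw [hu i s hs]
      split_ifs with hi
      · rw [tr_comm_gr hW hX hs t, hi.neg_one_pow, one_mul]
      · rw [zero_mul, mul_zero]
    · rw [map_zero, zero_mul, mul_zero]
    · intro a b ha hb
      rw [map_add, add_mul, mul_add, map_add, map_add, ha, hb]
  have hidem : ∀ s, opr γ (opr γ s) = opr γ s := by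
    intro s
    refine hW.hom_induction hX (P := fun s => opr γ (opr γ s) = opr γ s) s ?_ ?_ ?_
    · intro i s hs
      rw [hu i s hs]
      split_ifs with hi
      · rw [hu i s hs, if_pos hi]
      · rw [map_zero]
    · simp only [map_zero]
    · intro a b ha hb
      rw [map_add, map_add, ha, hb]
  have hone : opr γ (1 : W.coh X) = 1 := by
    rw [hu 0 1 (hW.one_gr hX), if_pos ⟨0, rfl⟩]
  have hproj : LinearMap.IsProj (LinearMap.range (opr γ)) (opr γ) :=
    ⟨fun x => ⟨x, rfl⟩, fun x ⟨y, hy⟩ => by rw [← hy, hidem]⟩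
  have htr := hproj.trace
  have hne : (⟨1, 1, hone⟩ : LinearMap.range (opr γ)) ≠ 0 := fun h =>
    h1 (congrArg Subtype.val h)
  have hpos : 0 < Module.finrank ℂ (LinearMap.range (opr γ)) :=
    Module.finrank_pos_iff_exists_ne_zero.2 ⟨_, hne⟩
  refine ⟨W.pull (lift (𝟙 X) (𝟙 X)) γ, hW.pull_alg hX (𝒱.prod hX hX) _ hγ, _, hpos, ?_⟩
  rw [← htr]
  exact tr_diag hW hX γ he

end SPT

end Pool.Agent.Lib.MP_361a6f_ag.FL
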