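import Pool.Agent.Lib.MP_361a6f_ag.FL.AlgC

/-!
# The inverse square root law: the definitions used in the statement
-/

open CategoryTheory AlgebraicGeometry MonoidalCategory CartesianMonoidalCategory

universe u v w

namespace Pool.Agent.Lib.MP_361a6f_ag.FL

open Pool.Agent.Lib.MP_361a6f_ag.H3 Pool.Agent.Lib.MP_361a6f_ag.SQ
  Pool.Agent.Lib.MP_361a6f_ag.PP

noncomputable section

variable {k : Type u} [Field k]

/-- The projector of `H^*(X)` to the cohomology of even degree is given by an algebraic class of
codimension `n = dim X` on `X × X` (the sign conjecture). -/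
def EvenProjector (W : CohomologyData.{u, 0, w} k ℂ) (X : Sch k) (n : ℕ) : Prop :=
  ∃ γ, W.IsAlg (X.prod X) n γ ∧ ∀ i x, W.Deg X i x →
    W.pf (Sch.pr₂ X X) (W.cup (W.pb (Sch.pr₁ X X) x) γ) = if Even i then x else 0

end

/-- **The inverse square root law.** For all `d` and `r` there is a constant `C` such that for
every variety `X` with `dim H^*(X) = d` whose even Kuenneth projector is algebraic: if on the
product of `r` copies of `X` there is an algebraic class `z ≠ 0` that is numerically equivalent to
`0`, then on the product of any number `n` of copies of `X` the rank of the intersection form on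
the algebraic classes is at most `C / √n` times the dimension of their span. -/
def RootLawStatement : Prop :=
  ∀ d r : ℕ, ∃ C : ℝ, ∀ {k : Type u} [Field k] (W : CohomologyData.{u, 0, w} k ℂ)
    (𝒱 : VarietyClass k) (_ : IsWeilCohomology W 𝒱) {X : Sch k} {e : ℕ} (_ : 𝒱.mem X e)
    (_ : EvenProjector W X e) (_ : Module.finrank ℂ (W.coh X) = d)
    (R : Prd 1) (_ : R.size = r) (l : ℕ) (z : W.coh (R.obj fun _ => X))
    (_ : W.IsAlg (R.obj fun _ => X) l z) (_ : z ≠ 0)
    (_ : ∀ j y, W.IsAlg (R.obj fun _ => X) j y → W.Tr (W.cup z y) = 0) (P : Prd 1),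
    √P.size * rankN W (P.obj fun _ => X) ≤ C * Module.finrank ℂ (algC W (P.obj fun _ => X))

end Pool.Agent.Lib.MP_361a6f_ag.FL
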